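import Pool.Agent.Work.MP_223b32_es.Interface

/-!
# Block VEC: a multiplicative relation between the eigenvalues, modulo `4`
-/

set_option autoImplicit false

namespace Pool.Agent.Work.ES

open Finset Polynomial Module Pool.Agent.Work.MP_223b32_ag Pool.Agent.Work.TC
open Pool.Agent.Work.TL (AA Om Stmt_FA)

namespace VEC

variable {ρ : AA →+* Om}

theorem om_two : (2 : Om) = 0 := by
  have h : CharP Om 2 := inferInstance
  exact CharTwo.two_eq_zero

theorem rho_two : ρ 2 = 0 := by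
  rw [map_ofNat]
  exact om_two

/-- `x = 1 + 2 l` and `l` reduces to `t`. -/
def P (ρ : AA →+* Om) (x : AA) (t : Om) : Prop := ∃ l : AA, x = 1 + 2 * l ∧ ρ l = t

theorem P_one : P ρ 1 0 := ⟨0, by ring, map_zero _⟩

theorem P_mul {x y : AA} {t s : Om} (h : P ρ x t) (h' : P ρ y s) : P ρ (x * y) (t + s) := by
  obtain ⟨l, hx, hl⟩ := h
  obtain ⟨m, hy, hm⟩ := h'
  refine ⟨l + m + 2 * (l * m), by rw [hx, hy]; ring, ?_⟩
  rw [map_add, map_add, map_mul, rho_two, hl, hm]
  ring

theorem P_pow {x : AA} {t : Om} (h : P ρ x t) (k : ℕ) : P ρ (x ^ k) (k * t) := by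
  induction k with
  | zero =>
    rw [pow_zero, Nat.cast_zero, zero_mul]
    exact P_one
  | succ k ih =>
    rw [pow_succ, Nat.cast_succ, add_mul, one_mul]
    exact P_mul ih h

theorem P_prod {ι : Type} (s : Finset ι) (x : ι → AA) (t : ι → Om) (h : ∀ i, P ρ (x i) (t i)) :
    P ρ (∏ i ∈ s, x i) (∑ i ∈ s, t i) := by
  classical
  induction s using Finset.induction_on with
  | empty =>
    rw [prod_empty, sum_empty]
    exact P_one
  | insert a s ha ih =>
    rw [prod_insert ha, sum_insert ha]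
    exact P_mul (h a) ih

theorem P_unique {x : AA} {t t' : Om} (h : P ρ x t) (h' : P ρ x t') : t = t' := by
  obtain ⟨l, hx, hl⟩ := h
  obtain ⟨m, hy, hm⟩ := h'
  have h1 : (2 : AA) * l = 2 * m := by
    have := hx.symm.trans hy
    exact add_left_cancel this
  have h2 : (2 : AA) ≠ 0 := by
    intro h
    have : ((2 : AA) : ℂ) = ((0 : AA) : ℂ) := congrArg Subtype.val h
    change (2 : ℂ) = 0 at this
    norm_num at this
  have h3 : l = m := mul_left_cancel₀ h2 h1
  rw [← hl, ← hm, h3]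

theorem om_nat (k : ℕ) : (k : Om) = 0 ∨ (k : Om) = 1 := by
  rcases Nat.even_or_odd' k with ⟨m, h | h⟩
  · left
    rw [h, Nat.cast_mul, Nat.cast_ofNat, om_two, zero_mul]
  · right
    rw [h, Nat.cast_add, Nat.cast_mul, Nat.cast_ofNat, om_two, zero_mul, zero_add, Nat.cast_one]

theorem om_mod (k : ℕ) : (k : Om) = if Odd k then 1 else 0 := by
  rcases Nat.even_or_odd' k with ⟨m, h | h⟩
  · rw [if_neg (by rw [h]; simp), h, Nat.cast_mul, Nat.cast_ofNat, om_two, zero_mul]
  · rw [if_pos ⟨m, h⟩, h, Nat.cast_add, Nat.cast_mul, Nat.cast_ofNat, om_two, zero_mul, zero_add,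
      Nat.cast_one]

/-- A root of unity `o` with `o R = L`, `L, R` congruent to `1` modulo `2`. -/
theorem root (hRU : Stmt_RU) {o L R : AA} {l r : Om} (hL : P ρ L l) (hR : P ρ R r)
    (h : L = o * R) (M : ℕ) (hM : 0 < M) (ho : o ^ M = 1) : l = r ∨ l = 1 + r := by
  have ho2 : o ^ 2 = 1 := by
    obtain ⟨a, ha, -⟩ := hL
    obtain ⟨b, hb, -⟩ := hR
    have h1 : ((o ^ 2 : AA) : ℂ) = 1 := by
      refine hRU ((o ^ 2 : AA) : ℂ) M hM ?_ (a + a ^ 2 - o ^ 2 * (b + b ^ 2)) ?_
      · have h2 : (o ^ 2) ^ M = (1 : AA) := by rw [← pow_mul, mul_comm, pow_mul, ho, one_pow]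
        have := congrArg Subtype.val h2
        exact this
      · have h2 : (o ^ 2 : AA) = 1 + 4 * (a + a ^ 2 - o ^ 2 * (b + b ^ 2)) := by
          rw [ha, hb] at h
          linear_combination (-(1 + 2 * a) - o * (1 + 2 * b)) * h
        exact congrArg Subtype.val h2
    exact Subtype.ext h1
  have h3 : o = 1 ∨ o = -1 := mul_self_eq_one_iff.1 (by rw [← pow_two]; exact ho2)
  rcases h3 with h3 | h3
  · left
    rw [h3, one_mul] at h
    rw [h] at hL
    exact P_unique hL hR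
  · right
    have h4 : P ρ (-1 : AA) 1 := by
      refine ⟨-1, by ring, ?_⟩
      rw [map_neg, map_one]
      have : (1 : Om) + 1 = 0 := by rw [one_add_one_eq_two, om_two]
      exact neg_eq_of_add_eq_zero_left this
    rw [h3] at h
    rw [h] at hL
    exact P_unique hL (P_mul h4 hR)

end VEC

open VEC in
/-- VEC -/
theorem stmt_VEC (hRU : Stmt_RU) : Stmt_VEC := by
  intro ρ n q hq hn ι _ α' w hw v M hM hrel
  classical
  have h2C : ((2 : AA) : ℂ) = 2 := rfl
  -- nonvanishing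
  have hα0 : ∀ i, α' i ≠ 0 := by
    intro i h
    have h1 := hw i
    rw [h, zero_pow (by omega)] at h1
    have h2 := congrArg ρ h1
    rw [map_zero, map_add, map_one, map_mul, rho_two, zero_mul, add_zero] at h2
    exact zero_ne_one h2
  have hαC : ∀ i, (α' i : ℂ) ≠ 0 := by
    intro i h
    exact hα0 i (Subtype.ext h)
  have hqC : (q : ℂ) ≠ 0 := by
    have : q ≠ 0 := hq.pos.ne'
    exact_mod_cast this
  -- the exponents
  set a : ι → ℕ := fun i => (v i).toNat with ha
  set b : ι → ℕ := fun i => (-v i).toNat with hb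
  have hab : ∀ i, v i = (a i : ℤ) - (b i : ℤ) := by
    intro i
    change v i = ((v i).toNat : ℤ) - ((-v i).toNat : ℤ)
    omega
  set om : ℂ := ∏ i, ((α' i : ℂ) / q) ^ v i with hom
  have hint : IsIntegral ℤ om := by
    refine ⟨X ^ M - 1, monic_X_pow_sub_C 1 hM.ne', ?_⟩
    rw [eval₂_sub, eval₂_pow, eval₂_X, eval₂_one, hrel, sub_self]
  have hC : (∏ i, (α' i : ℂ) ^ a i) * (q : ℂ) ^ (∑ i, b i) =
      om * ((∏ i, (α' i : ℂ) ^ b i) * (q : ℂ) ^ (∑ i, a i)) := by
    have h1 : om * ∏ i, ((α' i : ℂ) / q) ^ b i = ∏ i, ((α' i : ℂ) / q) ^ a i := by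
      rw [hom, ← prod_mul_distrib]
      refine prod_congr rfl fun i _ => ?_
      have h0 : (α' i : ℂ) / q ≠ 0 := div_ne_zero (hαC i) hqC
      rw [← zpow_natCast, ← zpow_natCast, ← zpow_add₀ h0]
      congr 1
      have := hab i
      omega
    have h2 : ∀ c : ι → ℕ, ∏ i, ((α' i : ℂ) / q) ^ c i =
        (∏ i, (α' i : ℂ) ^ c i) / (q : ℂ) ^ (∑ i, c i) := by
      intro c
      rw [← prod_pow_eq_pow_sum, ← prod_div_distrib]
      exact prod_congr rfl fun i _ => div_pow _ _ _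
    rw [h2, h2] at h1
    have h3 : (q : ℂ) ^ (∑ i, a i) ≠ 0 := pow_ne_zero _ hqC
    have h4 : (q : ℂ) ^ (∑ i, b i) ≠ 0 := pow_ne_zero _ hqC
    field_simp at h1
    linear_combination -h1
  -- the relation in `AA`
  set o : AA := ⟨om, hint⟩ with ho
  have hA : (∏ i, α' i ^ a i) * (q : AA) ^ (∑ i, b i) =
      o * ((∏ i, α' i ^ b i) * (q : AA) ^ (∑ i, a i)) := by
    apply Subtype.ext
    push_cast
    exact hC
  have hoM : o ^ M = 1 := by
    apply Subtype.ext
    push_cast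
    exact hrel
  obtain ⟨κ, hκ⟩ := hq.pow (n := 3 * n)
  have hκA : P ρ ((q : AA) ^ (3 * n)) (κ : Om) := by
    refine ⟨κ, ?_, map_natCast ρ κ⟩
    have : ((q ^ (3 * n) : ℕ) : AA) = ((2 * κ + 1 : ℕ) : AA) := congrArg _ hκ
    push_cast at this
    rw [this]
    ring
  have key : ∀ c d : ι → ℕ, P ρ (((∏ i, α' i ^ c i) * (q : AA) ^ (∑ i, d i)) ^ (3 * n))
      ((∑ i, (c i : Om) * ρ (w i)) + ((∑ i, d i : ℕ) : Om) * κ) := by
    intro c d
    have e : ((∏ i, α' i ^ c i) * (q : AA) ^ (∑ i, d i)) ^ (3 * n) =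
        (∏ i, (α' i ^ (3 * n)) ^ c i) * ((q : AA) ^ (3 * n)) ^ (∑ i, d i) := by
      rw [mul_pow, ← prod_pow]
      congr 1
      · exact prod_congr rfl fun i _ => pow_right_comm _ _ _
      · exact pow_right_comm _ _ _
    rw [e]
    exact P_mul (P_prod _ _ _ fun i => P_pow ⟨w i, hw i, rfl⟩ _) (P_pow hκA _)
  have hrt := root hRU (key a b) (key b a) (o := o ^ (3 * n)) (by rw [hA, mul_pow]) M hM
    (by rw [← pow_mul, mul_comm, pow_mul, hoM, one_pow])
  -- the sum over the odd exponents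
  have hsum : ∑ i ∈ univ.filter (fun i => Odd (v i)), ρ (w i) =
      (∑ i, (a i : Om) * ρ (w i)) + ∑ i, (b i : Om) * ρ (w i) := by
    rw [← sum_add_distrib, sum_filter]
    refine sum_congr rfl fun i _ => ?_
    rw [← add_mul, ← Nat.cast_add, om_mod]
    have h1 : Odd (a i + b i) ↔ Odd (v i) := by
      rw [← Int.odd_coe_nat, Int.natCast_add, hab i, Int.odd_add, Int.odd_sub]
    by_cases h : Odd (v i)
    · rw [if_pos h, if_pos (h1.2 h), one_mul]
    · rw [if_neg h, if_neg (fun h' => h (h1.1 h')), zero_mul]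
  rw [hsum]
  set A := ∑ i, (a i : Om) * ρ (w i)
  set B := ∑ i, (b i : Om) * ρ (w i)
  have hself : ∀ x : Om, x + x = 0 := fun x => by
    rw [← two_mul, om_two, zero_mul]
  have hnat : ∀ c : Om, A + ((∑ i, b i : ℕ) : Om) * κ = c + (B + ((∑ i, a i : ℕ) : Om) * κ) →
      A + B = c + (((∑ i, a i) + ∑ i, b i) * κ : ℕ) := by
    intro c hc
    push_cast at hc ⊢
    linear_combination hc + hself B - hself ((∑ i, (b i : Om)) * κ)
  rcases hrt with h | h
  · have := hnat 0 (by rw [h, zero_add])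
    rw [this, zero_add]
    exact om_nat _
  · have := hnat 1 h
    rw [this]
    rcases om_nat (((∑ i, a i) + ∑ i, b i) * κ) with h1 | h1
    · right
      rw [h1, add_zero]
    · left
      rw [h1, hself]

end Pool.Agent.Work.ES
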